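import Pool.Agent.Lib.helper18.Diam

namespace Pool.Agent.Results.MP_9ec5dc_an.Diameter
open Filter Topology

/-- the product of the distances over the unordered pairs -/
noncomputable def vand {n : ℕ} (w : Fin n → ℂ) : ℝ :=
  ∏ μ : Fin n, ∏ ν ∈ Finset.Ioi μ, ‖w μ - w ν‖

/-- the `n`-th diameter -/
noncomputable def dn (E : Set ℂ) (n : ℕ) : ℝ :=
  (sSup {x : ℝ | ∃ w : Fin n → ℂ, (∀ i, w i ∈ E) ∧ x = vand w}) ^ ((2 : ℝ) / (n * (n - 1)))

theorem result (E : Set ℂ) (hE : IsCompact E) (h : Tendsto (dn E) atTop (𝓝 1)) (n : ℕ)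
    (hn : 2 ≤ n) : (n : ℝ) ^ ((1 : ℝ) / (n - 1)) ≤ dn E n :=
  H18Diam.main hE h n hn

end Pool.Agent.Results.MP_9ec5dc_an.Diameter
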